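import Pool.Agent.H45.CG.Iface2

/-! Parts AMPL and AMPH of the project CG (helper45): amplification by one fresh letter. -/

set_option autoImplicit false

namespace H96CG
open RC14 RC852 TE852 LL14 LG45 Finset CG45
open scoped InnerProductSpace

section gen
variable {G : Type*} [Group G] [Fintype G]
variable {V : Type*} [NormedAddCommGroup V] [InnerProductSpace ℂ V] [FiniteDimensional ℂ V]

omit [Fintype G] in
open TYPES in
theorem NRKiso {ρ : G →* (V ≃ₗᵢ[ℂ] V)} {W U : Submodule ℂ V} (hW : Irr ρ W) (hU : Irr ρ U)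
    (h : Iso ρ W U) {Φ : V → ℝ} (hΦ : IsEn ρ Φ) {τ δ : ℝ} (hL : NRK W Φ τ δ) : NRK U Φ τ δ := by
  obtain ⟨T, s, hs, hT, hn, hmap⟩ := iso_data hW hU h
  obtain ⟨r, x, w, hw, hE⟩ := hΦ
  have hinj : ∀ v ∈ W, T v = 0 → v = 0 := by
    intro v hv h0
    have h1 := hn v hv
    rw [h0, norm_zero] at h1
    have h2 : ‖v‖ ^ 2 = 0 := by
      have h3 : s * ‖v‖ ^ 2 = 0 := by rw [← h1]; norm_num
      rcases mul_eq_zero.1 h3 with h4 | h4
      · exact absurd h4 hs.ne'
      · exact h4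
    exact norm_eq_zero.1 ((pow_eq_zero_iff two_ne_zero).1 h2)
  have hΦT : ∀ v ∈ W, Φ (T v) = s * Φ v := by
    intro v hv
    rw [hE, hE, Finset.mul_sum]
    refine Finset.sum_congr rfl fun t _ => ?_
    rw [← hT, ← map_sub, hn _ (Submodule.sub_mem _ (hW.2.1 _ _ hv) hv)]
    ring
  have hfin : ∀ Z : Submodule ℂ V, Z ≤ W → Module.finrank ℂ (Z.map T) = Module.finrank ℂ Z := by
    intro Z hZ
    have e : (T.domRestrict Z).range = Z.map T := by
      ext y
      simp only [LinearMap.mem_range, Submodule.mem_map, LinearMap.domRestrict_apply, Subtype.exists]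
      constructor
      · rintro ⟨a, ha, rfl⟩; exact ⟨a, ha, rfl⟩
      · rintro ⟨a, ha, rfl⟩; exact ⟨a, ha, rfl⟩
    rw [← e]
    apply LinearMap.finrank_range_of_inj
    rw [← LinearMap.ker_eq_bot, LinearMap.ker_eq_bot']
    intro z hz
    exact Subtype.ext (hinj z (hZ z.2) hz)
  intro Z hZ hΦZ
  have h1 := hL (W ⊓ Z.comap T) inf_le_left (by
    rintro u ⟨hu1, hu2⟩
    have h2 := hΦZ (T u) hu2
    rw [hΦT u hu1, hn u hu1] at h2
    have h3 : s * Φ u ≤ s * (τ * ‖u‖ ^ 2) := by linarith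
    exact le_of_mul_le_mul_left h3 hs)
  have h2 : (W ⊓ Z.comap T).map T = Z := by
    apply le_antisymm
    · rintro _ ⟨u, ⟨_, hu2⟩, rfl⟩
      exact hu2
    · intro z hz
      have hzU : z ∈ W.map T := by rw [hmap]; exact hZ hz
      obtain ⟨u, hu, rfl⟩ := hzU
      exact ⟨u, ⟨hu, hz⟩, rfl⟩
  rw [← hfin _ inf_le_left, h2, ← hfin W le_rfl, hmap] at h1
  exact h1

omit [Fintype G] in
open TYPES in
/-- union bound over the types of irreducible subspaces -/
theorem UBN (ρ : G →* (V ≃ₗᵢ[ℂ] V)) (M : Submodule ℂ V) (T : ℕ)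
    (hT : ∀ (N : ℕ) (W : Fin N → Submodule ℂ V), (∀ i, Irr ρ (W i)) → (∀ i, W i ≤ M) →
      (∀ i j, i ≠ j → ¬ Iso ρ (W i) (W j)) → N ≤ T)
    {Z : Type*} [Finite Z] (Φ : Z → V → ℝ) (hΦ : ∀ z, IsEn ρ (Φ z)) (τ δ B : ℝ) (hB0 : 0 ≤ B)
    (hB : ∀ W : Submodule ℂ V, Irr ρ W → W ≤ M →
      (Nat.card {z : Z // ¬ NRK W (Φ z) τ δ} : ℝ) ≤ B) :
    (Nat.card {z : Z // ¬ ∀ W : Submodule ℂ V, Irr ρ W → W ≤ M → NRK W (Φ z) τ δ} : ℝ) ≤
      T * B := by
  obtain ⟨N, W, hN, hW, hrep⟩ := types_rep ρ M T hT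
  have step : Nat.card {z : Z // ¬ ∀ W : Submodule ℂ V, Irr ρ W → W ≤ M → NRK W (Φ z) τ δ} ≤
      ∑ i, Nat.card {z : Z // ¬ NRK (W i) (Φ z) τ δ} := by
    apply RC14.card_union
    intro z hz
    by_contra hcon
    push Not at hcon
    apply hz
    intro U hU hUL
    obtain ⟨i, hi⟩ := hrep U hU hUL
    exact NRKiso (hW i).1 hU hi (hΦ z) (hcon i)
  have h2 : (N : ℝ) ≤ T := by exact_mod_cast hN
  calc _ ≤ ∑ i, (Nat.card {z : Z // ¬ NRK (W i) (Φ z) τ δ} : ℝ) := by exact_mod_cast step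
    _ ≤ ∑ i : Fin N, B := Finset.sum_le_sum fun i _ => hB (W i) (hW i).1 (hW i).2
    _ = N * B := by simp
    _ ≤ _ := mul_le_mul_of_nonneg_right h2 hB0

omit [Fintype G] [FiniteDimensional ℂ V] in
/-- from the restricted representation to the subspace -/
lemma NRK_of_res (W : Submodule ℂ V) (Φ : V → ℝ) (Ψ : W → ℝ) (τ δ : ℝ)
    (h : ∀ w : W, Ψ w ≤ Φ (w : V)) (hL : NRK (⊤ : Submodule ℂ W) Ψ τ δ) : NRK W Φ τ δ := by
  intro U hU hΦ
  have h1 := hL (U.comap W.subtype) le_top (by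
    intro u hu
    have h2 := hΦ (u : V) hu
    refine (h u).trans (h2.trans (le_of_eq ?_))
    rw [Submodule.coe_norm])
  have h3 : Module.finrank ℂ (U.comap W.subtype) = Module.finrank ℂ U := by
    have h4 := Submodule.finrank_map_subtype_eq W (U.comap W.subtype)
    rw [← h4, Submodule.map_comap_subtype, inf_eq_right.2 hU]
  rw [h3, finrank_top] at h1
  exact h1

omit [Fintype G] [FiniteDimensional ℂ V] in
/-- from the subspace to the restricted representation -/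
lemma NRK_res (W : Submodule ℂ V) (Φ : V → ℝ) (Ψ : W → ℝ) (τ δ : ℝ)
    (h : ∀ w : W, Φ (w : V) ≤ Ψ w) (hL : NRK W Φ τ δ) : NRK (⊤ : Submodule ℂ W) Ψ τ δ := by
  intro U _ hΨ
  have h1 := hL (U.map W.subtype) (Submodule.map_subtype_le W U) (by
    rintro _ ⟨u, hu, rfl⟩
    have h2 := hΨ u hu
    exact (h u).trans h2)
  have h3 : Module.finrank ℂ (U.map W.subtype) = Module.finrank ℂ U :=
    Submodule.finrank_map_subtype_eq W U
  rw [h3] at h1
  rw [finrank_top]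
  exact h1

omit [Fintype G] in
/-- the energy form is diagonal in an orthonormal basis -/
lemma En_diag {k : ℕ} (ρ : G →* (V ≃ₗᵢ[ℂ] V)) (x : Fin k → G) :
    ∃ (b : OrthonormalBasis (Fin (Module.finrank ℂ V)) ℂ V)
      (φ : Fin (Module.finrank ℂ V) → ℝ), ∀ v, En ρ x v = ∑ i, φ i * ‖⟪b i, v⟫_ℂ‖ ^ 2 := by
  have hadj : ∀ (g : G) (u v : V), ⟪op ρ g⁻¹ u, v⟫_ℂ = ⟪u, op ρ g v⟫_ℂ := by
    intro g u v
    rw [op_apply, op_apply]
    have h := TYPES.inner_rho_left (ρ := ρ) g⁻¹ u v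
    rw [inv_inv] at h
    exact h
  have hadj' : ∀ (g : G) (u v : V), ⟪op ρ g u, v⟫_ℂ = ⟪u, op ρ g⁻¹ v⟫_ℂ := by
    intro g u v
    have h := hadj g⁻¹ u v
    rwa [inv_inv] at h
  set L : Module.End ℂ V := ∑ i, ((2 : ℂ) • (1 : Module.End ℂ V) - op ρ (x i) - op ρ (x i)⁻¹) with hL
  have hLs : L.IsSymmetric := by
    intro u v
    rw [hL, LinearMap.sum_apply, LinearMap.sum_apply, sum_inner, inner_sum]
    refine Finset.sum_congr rfl fun i _ => ?_
    simp only [LinearMap.sub_apply, LinearMap.smul_apply, Module.End.one_apply]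
    rw [inner_sub_left, inner_sub_left, inner_sub_right, inner_sub_right, hadj, hadj',
      inner_smul_left, inner_smul_right]
    simp only [map_ofNat]
    ring
  obtain ⟨b, φ, hb⟩ := exists_dg L hLs
  refine ⟨b, φ, fun v => ?_⟩
  rw [← re_dg, ← hb, hL, LinearMap.sum_apply, sum_inner, Complex.re_sum]
  unfold En
  refine Finset.sum_congr rfl fun i _ => ?_
  simp only [LinearMap.sub_apply, LinearMap.smul_apply, Module.End.one_apply]
  rw [inner_sub_left, inner_sub_left, inner_smul_left, hadj]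
  have h1 := @norm_sub_sq ℂ _ _ _ _ (ρ (x i) v) v
  rw [(ρ (x i)).norm_map] at h1
  have h2 : RCLike.re (⟪ρ (x i) v, v⟫_ℂ) = (⟪ρ (x i) v, v⟫_ℂ).re := rfl
  rw [h2] at h1
  have h3 : (⟪v, op ρ (x i) v⟫_ℂ).re = (⟪ρ (x i) v, v⟫_ℂ).re := by
    rw [op_apply]
    exact inner_re_symm (𝕜 := ℂ) v (ρ (x i) v)
  have h4 : ((starRingEnd ℂ) 2 * ⟪v, v⟫_ℂ).re = 2 * ‖v‖ ^ 2 := by
    have h5 : (⟪v, v⟫_ℂ).re = ‖v‖ ^ 2 := inner_self_eq_norm_sq (𝕜 := ℂ) v
    rw [map_ofNat, Complex.mul_re, h5]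
    simp
  rw [Complex.sub_re, Complex.sub_re, h3, h4, op_apply, h1]
  ring

/-- one irreducible component -/
lemma oneA {k : ℕ} (ρ : G →* (V ≃ₗᵢ[ℂ] V)) (W : Submodule ℂ V) (hW : Irr ρ W) (x : Fin k → G)
    (τ0 τ1 c δ0 δ1 δ2 : ℝ) (hc : 0 < c) (hc1 : c ≤ 1 / 2) (hτ : τ1 + 16 * c ≤ τ0)
    (hδ2 : 0 < δ2) (h0 : NRK W (En ρ x) τ0 δ0) (h1 : NRK W (En ρ x) τ1 δ1) :
    (Nat.card {h : Fin 1 → G // ¬ NRK W (En ρ (Fin.append x h)) (τ1 + c) (δ1 + δ2)} : ℝ) ≤
      64 * δ0 ^ 2 / δ2 * Fintype.card G := by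
  classical
  have hEn : ∀ (w : W), En (res ρ W hW.2.1) x w = En ρ x (w : V) := by
    intro w
    unfold En
    apply Finset.sum_congr rfl
    intro i _
    rw [Submodule.coe_norm, Submodule.coe_sub, res_apply]
  obtain ⟨b, φ, hb⟩ := En_diag (V := W) (res ρ W hW.2.1) x
  set E := spj b {i | φ i ≤ τ0} with hE
  have hEs : SymIdem E := spj_symIdem b _
  have hrk : rtr E ≤ δ0 * Module.finrank ℂ W := by
    rw [rtr_proj E hEs]
    have h2 := NRK_res W (En ρ x) (En (res ρ W hW.2.1) x) τ0 δ0 (fun w => (hEn w).ge) h0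
    have h3 := h2 (LinearMap.range E) le_top (by
      rintro _ ⟨v, rfl⟩
      rw [hb]
      exact spj_le b _ φ τ0 (fun i hi => hi) v)
    rw [finrank_top] at h3
    exact h3
  have hA := AMPN (res ρ W hW.2.1) (RC14.AMP1.irr_res ρ W hW) E hEs δ0 δ2 hrk hδ2
  refine le_trans ?_ hA
  apply Nat.cast_le.2
  rw [RC14.card_equiv (Equiv.funUnique (Fin 1) G)
    (fun h : Fin 1 → G => ¬ NRK W (En ρ (Fin.append x h)) (τ1 + c) (δ1 + δ2))
    (fun g : G => ¬ NRK W (En ρ (Fin.append x (fun _ => g))) (τ1 + c) (δ1 + δ2)) (fun h => by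
      have : (fun _ => (Equiv.funUnique (Fin 1) G) h) = h := by
        funext i
        fin_cases i
        rfl
      rw [this])]
  apply RC14.card_mono
  intro g hg hmv
  apply hg
  have h2 := NRK_res W (En ρ x) (En (res ρ W hW.2.1) x) τ1 δ1 (fun w => (hEn w).ge) h1
  have h3 := DSTEP b φ (En (res ρ W hW.2.1) x) hb (res ρ W hW.2.1 g) τ0 τ1 c δ1 δ2 hc hc1 hτ h2 hmv
  refine NRK_of_res W _ _ _ _ (fun w => ?_) h3
  rw [En_append, hEn]
  have e : En ρ (fun _ : Fin 1 => g) (w : V) = ‖(res ρ W hW.2.1 g) w - w‖ ^ 2 := by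
    unfold En
    rw [Fin.sum_univ_one, Submodule.coe_norm, Submodule.coe_sub, res_apply]
  rw [e]

end gen

/-- Part AMPL -/
theorem ampl : StmtAMPL := by
  intro n r R k x τ0 τ1 c B lam lam' hR hc hc1 hτ hB hlam hlam' hnum h0 h1
  have hn2 : 2 ≤ n := by omega
  have hn0 : (0 : ℝ) < n := by exact_mod_cast (by omega : 0 < n)
  set A : ℝ := (Fintype.card (Alt n) : ℝ) with hA
  have hA0 : 0 < A := by rw [hA]; exact_mod_cast Fintype.card_pos
  have hcard : (Fintype.card (Fin 1 → Alt n) : ℝ) = A := by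
    rw [Fintype.card_fun, Fintype.card_fin, pow_one]
  have hlev : ∀ j ∈ Finset.Icc (r + 1) R,
      (Nat.card {h : Fin 1 → Alt n // ¬ ∀ W : Submodule ℂ (RC14.V j n),
        Irr (repA j n) W → W ≤ Lvl j n →
        NRK W (En (repA j n) (Fin.append x h)) (τ1 + c)
          ((B + 1) * Real.exp (-(lam' * j)))} : ℝ) ≤ 1 / (n : ℝ) ^ 3 * A := by
    intro j hj
    rw [Finset.mem_Icc] at hj
    have hj1 : r < j := by omega
    have hj2 : 2 * j + 2 ≤ n := by omega
    have e1 : (B + 1) * Real.exp (-(lam' * j)) =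
        B * Real.exp (-(lam' * j)) + Real.exp (-(lam' * j)) := by ring
    rw [e1]
    have hU := UBN (repA j n) (Lvl j n) (Nat.card (ConjClasses (Equiv.Perm (Fin j))))
      (fun _ W h1 h2 h3 => TYPESLVL.card_le hj2 W h1 h2 h3) (Z := Fin 1 → Alt n)
      (fun h v => En (repA j n) (Fin.append x h) v) (fun h => IsEn.en (repA j n) (Fin.append x h))
      (τ1 + c) (B * Real.exp (-(lam' * j)) + Real.exp (-(lam' * j)))
      (64 * (B * Real.exp (-(lam * j))) ^ 2 / Real.exp (-(lam' * j)) * A) (by positivity)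
      (fun W hW hWL => oneA (repA j n) W hW x τ0 τ1 c _ _ _ hc hc1 hτ (Real.exp_pos _)
        (h0 j hj1 hj.2 W hW hWL) (h1 j hj1 hj.2 W hW hWL))
    refine hU.trans ?_
    have h2 := CONJS j
    have h3 := hnum j hj1 hj.2
    have hjR : (0 : ℝ) ≤ j := Nat.cast_nonneg j
    have e2 : 64 * (B * Real.exp (-(lam * j))) ^ 2 / Real.exp (-(lam' * j)) =
        64 * B ^ 2 * Real.exp (-(2 * (lam * j)) + lam' * j) := by
      rw [mul_pow, ← Real.exp_nat_mul, div_eq_mul_inv, ← Real.exp_neg, neg_neg, mul_assoc,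
        mul_assoc, mul_assoc, ← Real.exp_add]
      congr 3
      push_cast
      ring_nf
    have e3 : Real.exp (-(2 * (lam * j)) + lam' * j) ≤ Real.exp (-(3 / 4 * (lam * j))) := by
      apply Real.exp_le_exp.2
      have : lam' * j ≤ 5 / 4 * lam * j := mul_le_mul_of_nonneg_right hlam' hjR
      linarith
    have e4 : Real.exp (3 * Real.sqrt j) * (64 * B ^ 2 * Real.exp (-(3 / 4 * (lam * j)))) ≤
        1 / (n : ℝ) ^ 3 := by
      rw [le_div_iff₀ (by positivity)]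
      have e5 : Real.exp (3 * Real.sqrt j) * (64 * B ^ 2 * Real.exp (-(3 / 4 * (lam * j)))) *
          (n : ℝ) ^ 3 = (64 * B ^ 2 * (n : ℝ) ^ 3 * Real.exp (3 * Real.sqrt j)) *
            Real.exp (-(3 / 4 * (lam * j))) := by ring
      rw [e5]
      calc _ ≤ Real.exp (3 / 4 * (lam * j)) * Real.exp (-(3 / 4 * (lam * j))) :=
            mul_le_mul_of_nonneg_right h3 (Real.exp_pos _).le
        _ = 1 := by rw [← Real.exp_add, add_neg_cancel, Real.exp_zero]
    rw [e2]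
    calc _ ≤ Real.exp (3 * Real.sqrt j) * (64 * B ^ 2 * Real.exp (-(3 / 4 * (lam * j))) * A) := by
          refine mul_le_mul h2 ?_ (by positivity) (by positivity)
          exact mul_le_mul_of_nonneg_right (mul_le_mul_of_nonneg_left e3 (by positivity)) hA0.le
      _ = Real.exp (3 * Real.sqrt j) * (64 * B ^ 2 * Real.exp (-(3 / 4 * (lam * j)))) * A := by
          ring
      _ ≤ _ := mul_le_mul_of_nonneg_right e4 hA0.le
  have step : Nat.card {h : Fin 1 → Alt n // ¬ RkL n r R (τ1 + c) (B + 1) lam' (Fin.append x h)} ≤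
      ∑ j ∈ Finset.Icc (r + 1) R, Nat.card {h : Fin 1 → Alt n //
        ¬ ∀ W : Submodule ℂ (RC14.V j n), Irr (repA j n) W → W ≤ Lvl j n →
        NRK W (En (repA j n) (Fin.append x h)) (τ1 + c)
          ((B + 1) * Real.exp (-(lam' * j)))} := by
    apply RC14.card_union_fin
    intro z hz
    by_contra hcon
    push Not at hcon
    exact hz fun j h1 h2 => hcon j (Finset.mem_Icc.mpr ⟨h1, h2⟩)
  have hcard' : ((Finset.Icc (r + 1) R).card : ℝ) ≤ n := by
    rw [Nat.card_Icc]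
    exact_mod_cast (show R + 1 - (r + 1) ≤ n by omega)
  rw [hcard]
  calc _ ≤ ∑ j ∈ Finset.Icc (r + 1) R,
        (Nat.card {h : Fin 1 → Alt n // ¬ ∀ W : Submodule ℂ (RC14.V j n),
          Irr (repA j n) W → W ≤ Lvl j n →
        NRK W (En (repA j n) (Fin.append x h)) (τ1 + c)
          ((B + 1) * Real.exp (-(lam' * j)))} : ℝ) := by
        exact_mod_cast step
    _ ≤ ∑ _j ∈ Finset.Icc (r + 1) R, 1 / (n : ℝ) ^ 3 * A := Finset.sum_le_sum hlev
    _ = ((Finset.Icc (r + 1) R).card : ℝ) * (1 / (n : ℝ) ^ 3 * A) := by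
        rw [Finset.sum_const, nsmul_eq_mul]
    _ ≤ (n : ℝ) * (1 / (n : ℝ) ^ 3 * A) := by
        gcongr
    _ = 1 / (n : ℝ) ^ 2 * A := by
        field_simp

/-- Part AMPH -/
theorem amph : StmtAMPH := by
  intro n r k x τ0 τ1 c B lam lam' hn hc hc1 hτ hB hlam hlam' hnum h0 h1
  have hn0 : (0 : ℝ) < n := by exact_mod_cast (by omega : 0 < n)
  set A : ℝ := (Fintype.card (Alt n) : ℝ) with hA
  have hA0 : 0 < A := by rw [hA]; exact_mod_cast Fintype.card_pos
  have hcard : (Fintype.card (Fin 1 → Alt n) : ℝ) = A := by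
    rw [Fintype.card_fun, Fintype.card_fin, pow_one]
  have e1 : (B + 1) * Real.exp (-lam') = B * Real.exp (-lam') + Real.exp (-lam') := by ring
  have hU := UBN (RR n) (HH r n) (Nat.card (ConjClasses (Alt n)))
    (fun _ W h1 _ h3 => TYPES.card_le W h1 h3) (Z := Fin 1 → Alt n)
    (fun h v => En (RR n) (Fin.append x h) v) (fun h => IsEn.en (RR n) (Fin.append x h))
    (τ1 + c) (B * Real.exp (-lam') + Real.exp (-lam'))
    (64 * (B * Real.exp (-lam)) ^ 2 / Real.exp (-lam') * A) (by positivity)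
    (fun W hW hWL => oneA (RR n) W hW x τ0 τ1 c _ _ _ hc hc1 hτ (Real.exp_pos _)
      (h0 W hW hWL) (h1 W hW hWL))
  rw [hcard]
  unfold RkH
  rw [e1]
  refine hU.trans ?_
  have h2 := CONJA n
  have e2 : 64 * (B * Real.exp (-lam)) ^ 2 / Real.exp (-lam') =
      64 * B ^ 2 * Real.exp (-(2 * lam) + lam') := by
    rw [mul_pow, ← Real.exp_nat_mul, div_eq_mul_inv, ← Real.exp_neg, neg_neg, mul_assoc,
      mul_assoc, mul_assoc, ← Real.exp_add]
    congr 3
    push_cast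
    ring_nf
  have e3 : Real.exp (-(2 * lam) + lam') ≤ Real.exp (-(3 / 4 * lam)) := by
    apply Real.exp_le_exp.2
    linarith
  have e4 : 2 * Real.exp (3 * Real.sqrt n) * (64 * B ^ 2 * Real.exp (-(3 / 4 * lam))) ≤
      1 / (n : ℝ) ^ 2 := by
    rw [le_div_iff₀ (by positivity)]
    have e5 : 2 * Real.exp (3 * Real.sqrt n) * (64 * B ^ 2 * Real.exp (-(3 / 4 * lam))) *
        (n : ℝ) ^ 2 = (128 * B ^ 2 * (n : ℝ) ^ 2 * Real.exp (3 * Real.sqrt n)) *
          Real.exp (-(3 / 4 * lam)) := by ring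
    rw [e5]
    calc _ ≤ Real.exp (3 / 4 * lam) * Real.exp (-(3 / 4 * lam)) :=
          mul_le_mul_of_nonneg_right hnum (Real.exp_pos _).le
      _ = 1 := by rw [← Real.exp_add, add_neg_cancel, Real.exp_zero]
  rw [e2]
  calc _ ≤ (2 * Real.exp (3 * Real.sqrt n)) *
        (64 * B ^ 2 * Real.exp (-(3 / 4 * lam)) * A) := by
        refine mul_le_mul h2 ?_ (by positivity) (by positivity)
        exact mul_le_mul_of_nonneg_right (mul_le_mul_of_nonneg_left e3 (by positivity)) hA0.le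
    _ = 2 * Real.exp (3 * Real.sqrt n) * (64 * B ^ 2 * Real.exp (-(3 / 4 * lam))) * A := by
        ring
    _ ≤ _ := mul_le_mul_of_nonneg_right e4 hA0.le

end H96CG
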