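import Pool.Agent.H45.CG.Iface3

/-!
Part CHAIN of the project CG (helper45), MP_75608d_al.
-/

namespace H96CH
open CG45 RC14 RC852 TE852 LL14 LG45 Finset

theorem chain : StmtCHAIN := by
  intro n I a0 P f K Q c1 p0 p1 hc1 hc1' hp0 hp1 hK hf hmono hmono2 hneg hQ hbase hfresh M
  induction M with
  | zero =>
    intro _
    have h : ∀ x : Fin ((a0 + 1) * 0) → Alt n, ∀ i ≤ I,
        P i ((a0 + 1) * 0) x (c1 * K i * (((0 : ℕ) : ℝ) - 16 * i - 1)) (((0 : ℕ) : ℝ) + 1) := by
      intro x i hi
      apply hneg i hi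
      · have h1 := (hK i hi).1
        have h2 : (0 : ℝ) ≤ i := Nat.cast_nonneg i
        have h3 : 0 < c1 * K i := mul_pos hc1 h1
        have h4 : ((0 : ℕ) : ℝ) - 16 * i - 1 < 0 := by push_cast; linarith
        exact mul_neg_of_pos_of_neg h3 h4
      · push_cast; linarith
    have he : IsEmpty {x : Fin ((a0 + 1) * 0) → Alt n // ¬ ∀ i ≤ I,
        P i ((a0 + 1) * 0) x (c1 * K i * (((0 : ℕ) : ℝ) - 16 * i - 1)) (((0 : ℕ) : ℝ) + 1)} :=
      ⟨fun x => x.2 (h x.1)⟩
    rw [Nat.card_of_isEmpty]
    simp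
  | succ M ih =>
    intro hM
    push_cast at hM
    have ih' := ih (by linarith)
    set A : ℝ := (Fintype.card (Alt n) : ℝ) with hA
    have hA0 : 0 ≤ A := Nat.cast_nonneg _
    have hM0 : (0 : ℝ) ≤ M := Nat.cast_nonneg _
    -- the middle property
    set E' : (Fin ((a0 + 1) * M + a0) → Alt n) → Prop := fun x =>
      (∀ i ≤ I, P i ((a0 + 1) * M + a0) x (c1 * K i * ((M : ℝ) - 16 * i - 1)) (M + 1)) ∧
        P 0 ((a0 + 1) * M + a0) x (c1 * K 0 * ((M : ℝ) - 16 * (0 : ℕ) - 1) + c1) (M + 1) with hE'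
    have hmid : (Nat.card {x : Fin ((a0 + 1) * M + a0) → Alt n // ¬ E' x} : ℝ) ≤
        (M * (p0 + I * p1) * A ^ ((a0 + 1) * M)) * A ^ a0 + p0 * A ^ ((a0 + 1) * M) * A ^ a0 := by
      rw [ROUNDHx.card_append]
      refine (card_prod_bound (fun x : Fin ((a0 + 1) * M) → Alt n => ∀ i ≤ I,
        P i ((a0 + 1) * M) x (c1 * K i * ((M : ℝ) - 16 * i - 1)) (M + 1))
        (fun x y => ¬ E' (Fin.append x y)) p0 hp0 ?_).trans ?_
      · intro x hx
        have h1 : Nat.card {y : Fin a0 → Alt n // ¬ E' (Fin.append x y)} ≤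
            Nat.card {y : Fin a0 → Alt n // ¬ Q y} := by
          apply RC14.card_mono
          intro y hy hQy
          apply hy
          refine ⟨fun i hi => hmono i hi _ _ x y _ _ (hx i hi), ?_⟩
          exact hbase _ x y _ _ hQy (hx 0 (Nat.zero_le _))
        have h2 : (Nat.card {y : Fin a0 → Alt n // ¬ E' (Fin.append x y)} : ℝ) ≤
            (Nat.card {y : Fin a0 → Alt n // ¬ Q y} : ℝ) := by exact_mod_cast h1
        rw [Fintype.card_fun, Fintype.card_fin]
        push_cast
        exact h2.trans hQ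
      · rw [Fintype.card_fun, Fintype.card_fun, Fintype.card_fin, Fintype.card_fin]
        push_cast
        rw [← hA]
        gcongr
    have hkey : (Nat.card {x : Fin (((a0 + 1) * M + a0) + 1) → Alt n // ¬ ∀ i ≤ I,
        P i (((a0 + 1) * M + a0) + 1) x (c1 * K i * (((M + 1 : ℕ) : ℝ) - 16 * i - 1))
          (((M + 1 : ℕ) : ℝ) + 1)} : ℝ) ≤
        ((M * (p0 + I * p1) * A ^ ((a0 + 1) * M)) * A ^ a0 +
          p0 * A ^ ((a0 + 1) * M) * A ^ a0) * A ^ 1 +
        (I * p1) * A ^ ((a0 + 1) * M + a0) * A ^ 1 := by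
      rw [ROUNDHx.card_append]
      refine (card_prod_bound E' (fun x h => ¬ ∀ i ≤ I,
        P i (((a0 + 1) * M + a0) + 1) (Fin.append x h)
          (c1 * K i * (((M + 1 : ℕ) : ℝ) - 16 * i - 1)) (((M + 1 : ℕ) : ℝ) + 1))
          (I * p1) (by positivity) ?_).trans ?_
      · intro x hx
        have h1 : Nat.card {h : Fin 1 → Alt n // ¬ ∀ i ≤ I,
            P i (((a0 + 1) * M + a0) + 1) (Fin.append x h)
            (c1 * K i * (((M + 1 : ℕ) : ℝ) - 16 * i - 1)) (((M + 1 : ℕ) : ℝ) + 1)} ≤
            ∑ i ∈ Finset.range I, Nat.card {h : Fin 1 → Alt n //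
              ¬ P (i + 1) (((a0 + 1) * M + a0) + 1) (Fin.append x h)
            (c1 * K (i + 1) * (((M + 1 : ℕ) : ℝ) - 16 * ((i + 1 : ℕ) : ℝ) - 1))
              (((M + 1 : ℕ) : ℝ) + 1)} := by
          apply RC14.card_union_fin (s := Finset.range I)
            (P := fun h : Fin 1 → Alt n => ¬ ∀ i ≤ I,
            P i (((a0 + 1) * M + a0) + 1) (Fin.append x h)
            (c1 * K i * (((M + 1 : ℕ) : ℝ) - 16 * i - 1)) (((M + 1 : ℕ) : ℝ) + 1))
            (Q := fun (i : ℕ) (h : Fin 1 → Alt n) =>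
              ¬ P (i + 1) (((a0 + 1) * M + a0) + 1) (Fin.append x h)
            (c1 * K (i + 1) * (((M + 1 : ℕ) : ℝ) - 16 * ((i + 1 : ℕ) : ℝ) - 1))
              (((M + 1 : ℕ) : ℝ) + 1))
          intro h hh
          simp only [not_forall] at hh
          obtain ⟨i, hi, hni⟩ := hh
          rcases Nat.eq_zero_or_pos i with h0 | h0
          · exfalso
            apply hni
            subst h0
            have h5 := hmono 0 (Nat.zero_le _) _ 1 x h _ _ hx.2
            refine hmono2 0 (Nat.zero_le _) _ _ _ _ _ _ ?_ ?_ h5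
            · have h6 := (hK 0 (Nat.zero_le _)).2
              push_cast
              nlinarith
            · push_cast; linarith
          · obtain ⟨j, rfl⟩ : ∃ j, i = j + 1 := ⟨i - 1, by omega⟩
            exact ⟨j, Finset.mem_range.2 (by omega), hni⟩
        have h2 : ∀ i ∈ Finset.range I, (Nat.card {h : Fin 1 → Alt n //
              ¬ P (i + 1) (((a0 + 1) * M + a0) + 1) (Fin.append x h)
            (c1 * K (i + 1) * (((M + 1 : ℕ) : ℝ) - 16 * ((i + 1 : ℕ) : ℝ) - 1))
              (((M + 1 : ℕ) : ℝ) + 1)} : ℝ) ≤ p1 * Fintype.card (Fin 1 → Alt n) := by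
          intro i hi
          have hi' : i < I := Finset.mem_range.1 hi
          have hKi := hK i hi'.le
          have hKi1 := hK (i + 1) hi'
          have hfi := hf i hi'
          by_cases hs : (M : ℝ) - 16 * i - 16 < 0
          · -- negative value
            have hall : ∀ h : Fin 1 → Alt n, P (i + 1) (((a0 + 1) * M + a0) + 1) (Fin.append x h)
              (c1 * K (i + 1) * (((M + 1 : ℕ) : ℝ) - 16 * ((i + 1 : ℕ) : ℝ) - 1))
              (((M + 1 : ℕ) : ℝ) + 1) := by
              intro h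
              apply hneg (i + 1) hi'
              · apply mul_neg_of_pos_of_neg (mul_pos hc1 hKi1.1)
                push_cast
                linarith
              · push_cast; linarith
            have he : IsEmpty {h : Fin 1 → Alt n //
              ¬ P (i + 1) (((a0 + 1) * M + a0) + 1) (Fin.append x h)
            (c1 * K (i + 1) * (((M + 1 : ℕ) : ℝ) - 16 * ((i + 1 : ℕ) : ℝ) - 1))
              (((M + 1 : ℕ) : ℝ) + 1)} := ⟨fun h => h.2 (hall h.1)⟩
            rw [Nat.card_of_isEmpty]
            simp only [Nat.cast_zero]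
            positivity
          · push Not at hs
            have hc : 0 < c1 * K (i + 1) := mul_pos hc1 hKi1.1
            have hc' : c1 * K (i + 1) ≤ 1 / 2 := by
              nlinarith [hKi1.2, hKi1.1]
            have hk0 : c1 * K i * ((M : ℝ) - 16 * i - 1) ≤ (((a0 + 1) * M + a0 : ℕ) : ℝ) := by
              have h7 : c1 * K i ≤ 1 := by nlinarith [hKi.1, hKi.2]
              have h8 : c1 * K i * ((M : ℝ) - 16 * i - 1) ≤ 1 * ((M : ℝ) - 16 * i - 1) :=
                mul_le_mul_of_nonneg_right h7 (by linarith)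
              have h9 : (0 : ℝ) ≤ i := Nat.cast_nonneg i
              have h10 : (M : ℝ) ≤ (((a0 + 1) * M + a0 : ℕ) : ℝ) := by
                have : M ≤ (a0 + 1) * M + a0 := by nlinarith
                exact_mod_cast this
              linarith
            have hpos : 0 < c1 * K i * ((M : ℝ) - 16 * i - 1) :=
              mul_pos (mul_pos hc1 hKi.1) (by linarith)
            have hstep := hfresh i hi' ((a0 + 1) * M + a0) x
              (c1 * K i * ((M : ℝ) - 16 * i - 1))
              (c1 * K (i + 1) * ((M : ℝ) - 16 * ((i + 1 : ℕ) : ℝ) - 1))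
              (c1 * K (i + 1)) (M + 1) hpos hk0 hc hc' (by linarith) (by linarith) ?_
              (hx.1 i hi'.le) (hx.1 (i + 1) hi')
            · have e1 : c1 * K (i + 1) * ((M : ℝ) - 16 * ((i + 1 : ℕ) : ℝ) - 1) + c1 * K (i + 1) =
                  c1 * K (i + 1) * (((M + 1 : ℕ) : ℝ) - 16 * ((i + 1 : ℕ) : ℝ) - 1) := by
                push_cast; ring
              have e2 : (M : ℝ) + 1 + 1 = ((M + 1 : ℕ) : ℝ) + 1 := by push_cast; ring
              rw [e1, e2] at hstep
              exact hstep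
            · have h11 : c1 * K (i + 1) * ((M : ℝ) - 16 * ((i + 1 : ℕ) : ℝ) - 1) +
                  16 * (c1 * K (i + 1)) = K (i + 1) * (c1 * ((M : ℝ) - 16 * i - 1)) := by
                push_cast; ring
              rw [h11]
              have h12 : 0 ≤ c1 * ((M : ℝ) - 16 * i - 1) :=
                mul_nonneg hc1.le (by linarith)
              calc K (i + 1) * (c1 * ((M : ℝ) - 16 * i - 1)) ≤
                    (f i * K i) * (c1 * ((M : ℝ) - 16 * i - 1)) :=
                    mul_le_mul_of_nonneg_right hfi.1 h12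
                _ = f i * (c1 * K i * ((M : ℝ) - 16 * i - 1)) := by ring
        have h3 : (Nat.card {h : Fin 1 → Alt n // ¬ ∀ i ≤ I,
            P i (((a0 + 1) * M + a0) + 1) (Fin.append x h)
            (c1 * K i * (((M + 1 : ℕ) : ℝ) - 16 * i - 1)) (((M + 1 : ℕ) : ℝ) + 1)} : ℝ) ≤
            ((∑ i ∈ Finset.range I, Nat.card {h : Fin 1 → Alt n //
              ¬ P (i + 1) (((a0 + 1) * M + a0) + 1) (Fin.append x h)
            (c1 * K (i + 1) * (((M + 1 : ℕ) : ℝ) - 16 * ((i + 1 : ℕ) : ℝ) - 1))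
              (((M + 1 : ℕ) : ℝ) + 1)} : ℕ) : ℝ) := by exact_mod_cast h1
        refine h3.trans ?_
        rw [Nat.cast_sum]
        refine (Finset.sum_le_sum h2).trans ?_
        rw [Finset.sum_const, Finset.card_range, nsmul_eq_mul, mul_assoc]
      · rw [Fintype.card_fun, Fintype.card_fun, Fintype.card_fin, Fintype.card_fin]
        push_cast
        rw [← hA]
        gcongr
    refine le_trans (le_of_eq ?_) (hkey.trans (le_of_eq ?_))
    · rfl
    · have e3 : (a0 + 1) * (M + 1) = (a0 + 1) * M + a0 + 1 := by ring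
      rw [e3, pow_add, pow_add, pow_one]
      push_cast
      ring

end H96CH
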