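import Pool.Agent.H45.CG.Iface3
import Pool.Graph.R_seed8.H14R2.LL.MAINH

/-!
Part FIN of the project CG (helper45), MP_75608d_al.
-/

namespace H96FN
open CG45 RC14 RC852 TE852 LL14 LG45 Finset Filter

theorem fin : StmtFIN := by
  rintro ⟨C, c, hC, hc, hev⟩
  refine ⟨C, c / 8, hC, by positivity, ?_⟩
  filter_upwards [hev] with n hn
  obtain ⟨kn, r, t, hkn, hknC, hct, hbad⟩ := hn
  intro k hk
  have hkn0 : (1 : ℝ) ≤ kn := by exact_mod_cast hkn
  have ht : 0 < t := lt_of_lt_of_le (by positivity) hct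
  have hknk : kn ≤ k := by
    have : (kn : ℝ) ≤ k := hknC.trans hk
    exact_mod_cast this
  have h1 : (Nat.card {x : Fin kn → Alt n // ¬ Expanding (c / 2) x} : ℝ) ≤
      1 / Real.sqrt n * (Fintype.card (Alt n) : ℝ) ^ kn := by
    refine le_trans ?_ hbad
    refine Nat.cast_le.mpr (card_mono _ _ fun x hx hcon => hx ?_)
    have h2 := FRALL n r kn hkn x t ht (fun j hj1 hj2 v hv => hcon.1 j hj1 hj2 v hv)
      (fun v hv => hcon.2 v hv)
    refine h2.mono ?_
    rw [div_le_div_iff₀ (by norm_num) (by positivity)]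
    nlinarith
  have h6 := BLOCKS kn k hkn hknk (c / 2) (1 / Real.sqrt n) (by positivity)
    (by positivity) h1
  have e : (2 : ℝ) / Real.sqrt n = 2 * (1 / Real.sqrt n) := by ring
  rw [e]
  have e2 : c / 8 = c / 2 / 4 := by ring
  rw [e2]
  exact h6

end H96FN
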