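import Mathlib

/-! The sequence of levels for the project CG (helper45). -/

set_option autoImplicit false

namespace H96CG
open Filter Real

noncomputable section

/-- upper bound for the next factor -/
def mx (n r : ℕ) : ℝ := min ((n : ℝ) / r) ((n : ℝ) ^ (1 / Real.log (Real.log n)))

/-- the next factor -/
def gg (n r : ℕ) : ℕ := ⌊(mx n r) ^ ((1 : ℝ) / 256)⌋₊

/-- the levels -/
def rr (n r0 : ℕ) : ℕ → ℕ
  | 0 => r0
  | i + 1 => rr n r0 i * gg n (rr n r0 i) ^ 8

lemma mx_nonneg (n r : ℕ) : 0 ≤ mx n r := le_min (by positivity) (by positivity)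

lemma gg_pow_le (n r : ℕ) : ((gg n r : ℕ) : ℝ) ^ 256 ≤ mx n r := by
  have h0 := mx_nonneg n r
  have h1 : ((gg n r : ℕ) : ℝ) ≤ (mx n r) ^ ((1 : ℝ) / 256) := Nat.floor_le (by positivity)
  calc ((gg n r : ℕ) : ℝ) ^ 256 ≤ ((mx n r) ^ ((1 : ℝ) / 256)) ^ 256 :=
        pow_le_pow_left₀ (by positivity) h1 256
    _ = mx n r := by
        rw [← Real.rpow_natCast, ← Real.rpow_mul h0]
        norm_num

lemma lt_gg_pow (n r : ℕ) : mx n r < ((gg n r : ℝ) + 1) ^ 256 := by
  have h0 := mx_nonneg n r
  have h1 : (mx n r) ^ ((1 : ℝ) / 256) < (gg n r : ℝ) + 1 := Nat.lt_floor_add_one _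
  calc mx n r = ((mx n r) ^ ((1 : ℝ) / 256)) ^ 256 := by
        rw [← Real.rpow_natCast, ← Real.rpow_mul h0]
        norm_num
    _ < _ := pow_lt_pow_left₀ h1 (by positivity) (by norm_num)

/-- the potential -/
def ph (T x : ℝ) : ℝ := x / T + Real.log x

lemma ph_step {T x x' : ℝ} (hT : 0 < T) (hx : 0 < x) (hx' : 0 < x')
    (h : x' ≤ x - 1 / 64 * min x T) : ph T x' ≤ ph T x - 1 / 64 := by
  unfold ph
  rcases le_total T x with hle | hle
  · rw [min_eq_right hle] at h
    have h1 : x' / T ≤ x / T - 1 / 64 := by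
      rw [div_le_iff₀ hT, sub_mul, div_mul_cancel₀ _ hT.ne']
      linarith
    have h2 : Real.log x' ≤ Real.log x := Real.log_le_log hx' (by linarith)
    linarith
  · rw [min_eq_left hle] at h
    have h1 : x' / T ≤ x / T := div_le_div_of_nonneg_right (by linarith) hT.le
    have h2 : Real.log x' ≤ Real.log x - 1 / 64 := by
      have h3 : x' ≤ x * (63 / 64) := by linarith
      calc Real.log x' ≤ Real.log (x * (63 / 64)) := Real.log_le_log hx' h3
        _ = Real.log x + Real.log (63 / 64) := Real.log_mul hx.ne' (by norm_num)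
        _ ≤ _ := by
          have := Real.log_le_sub_one_of_pos (show (0 : ℝ) < 63 / 64 by norm_num)
          linarith
    linarith

theorem core (G0 : ℕ) (hG0 : 2 ≤ G0) : ∃ (D1 : ℕ) (C : ℝ), 100 ≤ D1 ∧ 0 < C ∧
    ∀ᶠ n : ℕ in atTop, ∃ (I : ℕ) (r G : ℕ → ℕ), (I : ℝ) ≤ C * Real.log (Real.log n) ∧
      r 0 = ⌊(n : ℝ) ^ (3 / 4 : ℝ)⌋₊ ∧
      (∀ i < I, G0 ≤ G i ∧ r i * G i ^ 256 ≤ n ∧
        ((G i : ℝ)) ^ 256 ≤ (n : ℝ) ^ (1 / Real.log (Real.log n)) ∧ r (i + 1) = r i * G i ^ 8) ∧
      n ≤ D1 * r I ∧ 2 * r I + 2 ≤ n := by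
  refine ⟨max 100 (G0 ^ 256), 128, le_max_left _ _, by norm_num, ?_⟩
  have hlog : Tendsto (fun n : ℕ => Real.log n) atTop atTop :=
    Real.tendsto_log_atTop.comp tendsto_natCast_atTop_atTop
  have hll : Tendsto (fun n : ℕ => Real.log (Real.log n)) atTop atTop :=
    Real.tendsto_log_atTop.comp hlog
  have hT : Tendsto (fun n : ℕ => Real.log n / Real.log (Real.log n)) atTop atTop := by
    have h1 : Tendsto (fun x : ℝ => x / Real.log x) atTop atTop := by
      have h2 : Tendsto (fun x : ℝ => Real.exp x / x ^ 1) atTop atTop :=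
        Real.tendsto_exp_div_pow_atTop 1
      have h3 := h2.comp Real.tendsto_log_atTop
      refine h3.congr' ?_
      filter_upwards [eventually_gt_atTop 0] with x hx
      simp only [Function.comp, pow_one, Real.exp_log hx]
    exact h1.comp hlog
  have hbig : ∀ᶠ n : ℕ in atTop, 2 * ⌊(n : ℝ) ^ (3 / 4 : ℝ)⌋₊ + 2 ≤ n := by
    filter_upwards [eventually_ge_atTop 10000] with n hn
    have hn' : (10000 : ℝ) ≤ n := by exact_mod_cast hn
    have h0 : (0 : ℝ) < n := by linarith
    set y : ℝ := (n : ℝ) ^ (1 / 4 : ℝ) with hy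
    have hy0 : 0 ≤ y := by positivity
    have hy4 : y ^ 4 = n := by
      rw [hy, ← Real.rpow_natCast, ← Real.rpow_mul h0.le]
      norm_num
    have hy3 : (n : ℝ) ^ (3 / 4 : ℝ) = y ^ 3 := by
      rw [hy, ← Real.rpow_natCast, ← Real.rpow_mul h0.le]
      norm_num
    have hy10 : 10 ≤ y := by
      by_contra hlt
      push Not at hlt
      have : y ^ 4 < 10 ^ 4 := pow_lt_pow_left₀ hlt hy0 (by norm_num)
      rw [hy4] at this
      norm_num at this
      linarith
    have h1 : ((2 * ⌊(n : ℝ) ^ (3 / 4 : ℝ)⌋₊ + 2 : ℕ) : ℝ) ≤ n := by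
      push_cast
      have h2 : ((⌊(n : ℝ) ^ (3 / 4 : ℝ)⌋₊ : ℕ) : ℝ) ≤ y ^ 3 := by
        rw [← hy3]
        exact Nat.floor_le (by positivity)
      have h3 : (1 : ℝ) ≤ y ^ 3 := one_le_pow₀ (by linarith)
      have h5 : 10 * y ^ 3 ≤ n := by
        calc 10 * y ^ 3 ≤ y * y ^ 3 := mul_le_mul_of_nonneg_right hy10 (by positivity)
          _ = y ^ 4 := by ring
          _ = n := hy4
      linarith
    exact_mod_cast h1
  filter_upwards [hbig, eventually_ge_atTop 2, hll.eventually_ge_atTop 1,
    hT.eventually_ge_atTop (256 * Real.log G0)] with n hn1 hn2 hL hTn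
  set r0 := ⌊(n : ℝ) ^ (3 / 4 : ℝ)⌋₊ with hr0
  set L := Real.log (Real.log n) with hLdef
  set T := Real.log n / L with hTdef
  have hn0 : (0 : ℝ) < n := by positivity
  have hn1' : (1 : ℝ) ≤ n := by exact_mod_cast (by omega : 1 ≤ n)
  have hL0 : 0 < L := by linarith
  have hlogn : 0 < Real.log n := by
    by_contra h
    push Not at h
    have h1 : Real.log n = 0 := le_antisymm h (Real.log_nonneg hn1')
    rw [hLdef, h1, Real.log_zero] at hL
    linarith
  have hT0 : 0 < T := div_pos hlogn hL0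
  have hr0pos : 1 ≤ r0 := by
    rw [hr0]
    exact Nat.le_floor (by simpa using Real.one_le_rpow hn1' (by norm_num))
  have hG0R : (2 : ℝ) ≤ G0 := by exact_mod_cast hG0
  set r := rr n r0 with hr
  set G := fun i => gg n (r i) with hG
  have hrs : ∀ i, r (i + 1) = r i * G i ^ 8 := fun i => rfl
  have hpow : (n : ℝ) ^ (1 / L) = Real.exp T := by
    rw [Real.rpow_def_of_pos hn0, hTdef]
    congr 1
    ring
  -- positivity up to the stopping time
  have hpos : ∀ m, (∀ i < m, G0 ≤ G i) → 1 ≤ r m := by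
    intro m
    induction m with
    | zero => intro _; exact hr0pos
    | succ m ih =>
      intro h
      rw [hrs]
      have h1 := ih (fun i hi => h i (by omega))
      have h2 := h m (by omega)
      have h3 : 1 ≤ G m := by omega
      exact Nat.one_le_iff_ne_zero.2 (Nat.mul_ne_zero (by omega) (pow_ne_zero _ (by omega)))
  set x : ℕ → ℝ := fun i => Real.log ((n : ℝ) / r i) with hx
  -- bounds at a step
  have hstep : ∀ i, 1 ≤ r i → G0 ≤ G i → 1 ≤ x i ∧ 1 ≤ x (i + 1) ∧
      x (i + 1) ≤ x i - 1 / 64 * min (x i) T := by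
    intro i hri hGi
    have hriR : (0 : ℝ) < r i := by exact_mod_cast hri
    have hGR : (2 : ℝ) ≤ G i := hG0R.trans (by exact_mod_cast hGi)
    have hG0' : (0 : ℝ) < G i := by linarith
    have hlG : Real.log 2 ≤ Real.log (G i) := Real.log_le_log (by norm_num) hGR
    have hl2 : (0.6931471803 : ℝ) < Real.log 2 := Real.log_two_gt_d9
    have h1 : ((G i : ℕ) : ℝ) ^ 256 ≤ mx n (r i) := gg_pow_le n (r i)
    have h2 : mx n (r i) < ((G i : ℝ) + 1) ^ 256 := lt_gg_pow n (r i)
    have hq0 : 0 < (n : ℝ) / r i := by positivity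
    have hmx0 : 0 < mx n (r i) := lt_min hq0 (by positivity)
    have h3 : 256 * Real.log (G i) ≤ x i := by
      have h4 : ((G i : ℕ) : ℝ) ^ 256 ≤ (n : ℝ) / r i := h1.trans (min_le_left _ _)
      have h5 := Real.log_le_log (by positivity) h4
      rw [Real.log_pow] at h5
      exact_mod_cast h5
    have hxs : x (i + 1) = x i - 8 * Real.log (G i) := by
      simp only [hx]
      rw [hrs]
      push_cast
      rw [Real.log_div hn0.ne' hriR.ne', Real.log_div hn0.ne' (by positivity),
        Real.log_mul hriR.ne' (by positivity), Real.log_pow]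
      push_cast
      ring
    have hlm : Real.log (mx n (r i)) = min (x i) T := by
      unfold mx
      rw [hpow]
      rcases le_total ((n : ℝ) / r i) (Real.exp T) with hle | hle
      · rw [min_eq_left hle, min_eq_left]
        simp only [hx]
        rw [← Real.log_exp T]
        exact Real.log_le_log hq0 hle
      · rw [min_eq_right hle, Real.log_exp, min_eq_right]
        simp only [hx]
        rw [← Real.log_exp T]
        exact Real.log_le_log (Real.exp_pos T) hle
    have h6 : min (x i) T ≤ 512 * Real.log (G i) := by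
      rw [← hlm]
      have h7 : (G i : ℝ) + 1 ≤ (G i : ℝ) ^ 2 := by nlinarith
      have h8 : mx n (r i) ≤ ((G i : ℝ) ^ 2) ^ 256 :=
        h2.le.trans (pow_le_pow_left₀ (by positivity) h7 256)
      have h9 := Real.log_le_log hmx0 h8
      rw [Real.log_pow, Real.log_pow] at h9
      push_cast at h9
      linarith
    refine ⟨by linarith, by rw [hxs]; linarith, by rw [hxs]; linarith⟩
  -- the potential
  have hpot : ∀ m, (∀ i < m, G0 ≤ G i) → 1 ≤ x m → ph T (x m) ≤ 2 * L - m / 64 := by
    intro m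
    induction m with
    | zero =>
      intro _ h1
      have hx0 : x 0 ≤ Real.log n := by
        simp only [hx]
        refine Real.log_le_log (by positivity) ?_
        have h2 : (1 : ℝ) ≤ r 0 := by exact_mod_cast hr0pos
        exact div_le_self hn0.le h2
      unfold ph
      have h3 : x 0 / T ≤ L := by
        rw [div_le_iff₀ hT0, hTdef, mul_div_cancel₀ _ hL0.ne']
        exact hx0
      have h4 : Real.log (x 0) ≤ L := Real.log_le_log (by linarith) hx0
      push_cast
      linarith
    | succ m ih =>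
      intro h _
      have h1 := hpos m (fun i hi => h i (by omega))
      obtain ⟨a1, a2, a3⟩ := hstep m h1 (h m (by omega))
      have h2 := ih (fun i hi => h i (by omega)) a1
      have h3 := ph_step hT0 (by linarith) (by linarith) a3
      push_cast
      linarith
  have hbound : ∀ m, 0 < m → (∀ i < m, G0 ≤ G i) → (m : ℝ) ≤ 128 * L := by
    intro m hm h
    obtain ⟨m', rfl⟩ : ∃ m', m = m' + 1 := ⟨m - 1, by omega⟩
    have h1 := hpos m' (fun i hi => h i (by omega))
    obtain ⟨a1, a2, a3⟩ := hstep m' h1 (h m' (by omega))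
    have h2 := hpot (m' + 1) h a2
    have h3 : 0 ≤ ph T (x (m' + 1)) := by
      unfold ph
      have := Real.log_nonneg a2
      have : 0 ≤ x (m' + 1) / T := by positivity
      linarith
    linarith
  -- the stopping time
  have hex : ∃ i, G i < G0 := by
    by_contra h
    push Not at h
    obtain ⟨m, hm⟩ := exists_nat_gt (128 * L)
    have := hbound (m + 1) (by omega) (fun i _ => h i)
    push_cast at this
    linarith
  classical
  set I := Nat.find hex with hI
  have hI1 : ∀ i < I, G0 ≤ G i := fun i hi => not_lt.1 (Nat.find_min hex hi)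
  have hI2 : G I < G0 := Nat.find_spec hex
  refine ⟨I, r, G, ?_, rfl, ?_, ?_, ?_⟩
  · rcases Nat.eq_zero_or_pos I with h0 | h0
    · rw [h0]
      push_cast
      positivity
    · exact hbound I h0 hI1
  · intro i hi
    have hri := hpos i (fun j hj => hI1 j (by omega))
    have hriR : (0 : ℝ) < r i := by exact_mod_cast hri
    have h1 : ((G i : ℕ) : ℝ) ^ 256 ≤ mx n (r i) := gg_pow_le n (r i)
    refine ⟨hI1 i hi, ?_, h1.trans (min_le_right _ _), hrs i⟩
    have h2 := h1.trans (min_le_left _ _)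
    rw [le_div_iff₀ hriR] at h2
    have h3 : ((r i * G i ^ 256 : ℕ) : ℝ) ≤ n := by
      push_cast
      linarith
    exact_mod_cast h3
  · have hrI := hpos I hI1
    have hrIR : (0 : ℝ) < r I := by exact_mod_cast hrI
    have h2 : mx n (r I) < ((G I : ℝ) + 1) ^ 256 := lt_gg_pow n (r I)
    have h3 : (G I : ℝ) + 1 ≤ G0 := by exact_mod_cast hI2
    have h4 : mx n (r I) < (G0 : ℝ) ^ 256 :=
      h2.trans_le (pow_le_pow_left₀ (by positivity) h3 256)
    have h5 : (n : ℝ) / r I < (G0 : ℝ) ^ 256 := by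
      unfold mx at h4
      rw [min_lt_iff] at h4
      rcases h4 with h4 | h4
      · exact h4
      · exfalso
        rw [hpow] at h4
        have h6 : (G0 : ℝ) ^ 256 ≤ Real.exp T := by
          have h7 : (G0 : ℝ) ^ 256 = Real.exp (256 * Real.log G0) := by
            rw [mul_comm, Real.exp_mul, Real.exp_log (by linarith)]
            norm_cast
          rw [h7]
          exact Real.exp_le_exp.2 hTn
        linarith
    rw [div_lt_iff₀ hrIR] at h5
    have h6 : ((n : ℕ) : ℝ) ≤ ((max 100 (G0 ^ 256) * r I : ℕ) : ℝ) := by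
      have h7 : ((G0 ^ 256 : ℕ) : ℝ) ≤ ((max 100 (G0 ^ 256) : ℕ) : ℝ) := by
        exact_mod_cast le_max_right _ _
      rw [Nat.cast_mul]
      refine h5.le.trans (mul_le_mul_of_nonneg_right ?_ hrIR.le)
      rw [← Nat.cast_pow]
      exact h7
    exact_mod_cast h6
  · rcases Nat.eq_zero_or_pos I with h0 | h0
    · rw [h0]
      exact hn1
    · obtain ⟨i, hi⟩ : ∃ i, I = i + 1 := ⟨I - 1, by omega⟩
      have hri := hpos i (fun j hj => hI1 j (by omega))
      have hriR : (0 : ℝ) < r i := by exact_mod_cast hri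
      have hGi : 2 ≤ G i := hG0.trans (hI1 i (by omega))
      have h1 : ((G i : ℕ) : ℝ) ^ 256 ≤ mx n (r i) := gg_pow_le n (r i)
      have h2 := h1.trans (min_le_left _ _)
      rw [le_div_iff₀ hriR] at h2
      have h3 : r i * G i ^ 256 ≤ n := by
        have : ((r i * G i ^ 256 : ℕ) : ℝ) ≤ n := by
          push_cast
          linarith
        exact_mod_cast this
      rw [hi, hrs]
      have h4 : 1 ≤ r i * G i ^ 8 :=
        Nat.one_le_iff_ne_zero.2 (Nat.mul_ne_zero (by omega) (pow_ne_zero _ (by omega)))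
      have h5 : 4 ≤ G i ^ 248 := by
        calc 4 = 2 ^ 2 := by norm_num
          _ ≤ G i ^ 2 := Nat.pow_le_pow_left hGi 2
          _ ≤ G i ^ 248 := Nat.pow_le_pow_right (by omega) (by norm_num)
      have h6 : r i * G i ^ 8 * 4 ≤ n := by
        calc r i * G i ^ 8 * 4 ≤ r i * G i ^ 8 * G i ^ 248 := Nat.mul_le_mul_left _ h5
          _ = r i * G i ^ 256 := by rw [mul_assoc, ← pow_add]
          _ ≤ n := h3
      omega

end

end H96CG
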