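import Pool.Agent.H45.CG.Iface2
import Pool.Agent.H96.CG.SchedCore

/-! Part SCHED of the project CG (helper45). -/

namespace H96CG

theorem part : CG45.StmtSCHED := fun G0 h => core G0 h

end H96CG
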